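import Pool.Agent.N944.BH.Two

/-!
`B(2 q^b) = 2` for every odd prime `q` and every `b ≥ 1`, where `B n` is the largest height of a
divisor of `X^n - 1` in `ℤ[X]`.
-/

set_option autoImplicit false

namespace Pool.Agent.Results.MP_0523aa_nt.HeightTwo

open Pool.Agent.N944.BH Polynomial

/-- For every odd prime `q` and every `b ≥ 1` the largest height of a divisor of `X^(2 q^b) - 1` in
`ℤ[X]` is `2`; the heights of the divisors of `X^n - 1` form a bounded set for every `n ≥ 1`, so the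
supremum in the definition of `B` is a maximum. -/
theorem result :
    (∀ q b : ℕ, q.Prime → q ≠ 2 → 1 ≤ b → B (2 * q ^ b) = 2) ∧
    (∀ n : ℕ, 1 ≤ n → (∀ f : ℤ[X], f ∣ X ^ n - 1 → height f ≤ B n) ∧
      ∃ f : ℤ[X], f ∣ X ^ n - 1 ∧ height f = B n) :=
  ⟨fun _ _ hq hq2 hb => B_two_mul_pow hq hq2 hb,
    fun _ hn => ⟨fun _ hf => le_B hn hf, B_mem hn⟩⟩

end Pool.Agent.Results.MP_0523aa_nt.HeightTwo
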